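import Mathlib
import Pool.Agent.H60.ColPart

open Pool.Agent.H60.ColPart Filter Topology in
/-- A strictly increasing sequence with gcd one and infinitely many prime divisors whose odd
densities are at most `1/4` for `k ≥ 3`, hence do not tend to `1/2`. -/
theorem Pool.Agent.Results.MP_cb5b52_nt.Counter.result :
    ∃ a : ℕ → ℕ, StrictMono a ∧ (∀ i, 0 < a i) ∧ (∀ d : ℕ, (∀ i, d ∣ a i) → d = 1) ∧
      {p : ℕ | p.Prime ∧ ∃ i, p ∣ a i}.Infinite ∧
      ∃ δ : ℕ → ℝ, (∀ k, 1 ≤ k → HasOddDensity a k (δ k)) ∧ (∀ k, 3 ≤ k → δ k ≤ 1 / 4) ∧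
        ¬ Tendsto δ atTop (𝓝 (1 / 2)) := by
  have hex : ∀ k, ∃ δ : ℝ, 1 ≤ k → HasOddDensity seqA k δ := by
    intro k
    by_cases hk : 1 ≤ k
    · obtain ⟨δ, h⟩ := exists_density seqA seqA_pos k hk
      exact ⟨δ, fun _ => h⟩
    · exact ⟨0, fun h => absurd h hk⟩
  choose δ hδ using hex
  have hle : ∀ k, 3 ≤ k → δ k ≤ 1 / 4 := fun k hk =>
    seqA_density_le k hk _ (hδ k (by omega))
  refine ⟨seqA, ?_, seqA_pos, fun d hd => ?_, ?_, δ, hδ, hle, fun h => ?_⟩
  · refine strictMono_nat_of_lt_succ fun i => ?_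
    match i with
    | 0 => decide
    | 1 => decide
    | 2 => decide
    | j + 3 =>
      simp only [seqA]
      rw [if_neg (by omega), if_neg (by omega)]
      omega
  · simpa [seqA] using hd 0
  · refine Set.Infinite.mono (fun p hp => ?_) Nat.infinite_setOf_prime
    have hp' : p.Prime := hp
    have := hp'.two_le
    refine ⟨hp', p + 2, ?_⟩
    simp only [seqA]
    rw [if_neg (by omega)]
    simp
  · have := le_of_tendsto h (eventually_atTop.2 ⟨3, hle⟩)
    norm_num at this
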